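import Mathlib
import Pool.Agent.Results.MP_70f607_gt.ClopenNotOpen
import Pool.Agent.Helper292.ForceCH

/-!
# It is consistent with ZFC that `S₁(Γ_0, Ω_0)` for `C_p(X)` does not give `S₁(Γ, Ω)` for `X`

The continuum hypothesis is forced by the countable approximations of `Helper292.ForceCH`, and it
gives a set of irrationals as required. The forcing language is the one of
`Pool.Agent.Helper669.Forcing`: a sentence is the set of the conditions which force it;
`CHHolds P` says that `ω₁` many subsets of `ℕ` are all subsets of `ℕ`.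
-/

set_option autoImplicit false

namespace Pool.Agent.Results.MP_70f607_gt.ForcedFailure

open Set Cardinal Pool.Agent.Helper292.ForceCH
open Pool.Agent.Results.MP_70f607_gt.ClopenNotOpen

/-- (1) Some forcing notion forces that `ω₁` is preserved and that the continuum hypothesis holds.
(2) The continuum hypothesis implies that there is a set `X` of irrationals such that `C_p(X)`
satisfies `S₁(Γ_0, Ω_0)` and `X` satisfies `S₁(C_Γ, C_Ω)`, but `X` does not satisfy `S₁(Γ, Ω)`.
So the equivalence of the question is not provable in ZFC. -/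
theorem result :
    (∃ (P : Type) (_ : Preorder P), Nonempty P ∧ ∀ p : P,
      p ∈ OmegaOnePreserved P ∧ p ∈ CHHolds P) ∧
    ((ℵ₁ : Cardinal.{0}) = 𝔠 →
      (∃ X : Set ℝ, (∀ x ∈ X, Irrational x) ∧ S1 (Gamma0 X) (Omega0 X) ∧
        S1 (CGamma X) (COmega X) ∧ ¬ S1 (Gamma X) (Omega X)) ∧
      ¬ ∀ X : Set ℝ, (∀ x ∈ X, Irrational x) →
        (S1 (Gamma0 X) (Omega0 X) ↔ S1 (Gamma X) (Omega X))) := by
  refine ⟨?_, fun h => ?_⟩
  · obtain ⟨P, i, h1, h2⟩ := exists_forcing
    exact ⟨P, i, h1, fun p => ⟨(h2 p).1, (h2 p).2.2⟩⟩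
  · have h1 := ClopenNotOpen.result h.symm
    refine ⟨h1, fun hall => ?_⟩
    obtain ⟨X, hX, h2, -, h3⟩ := h1
    exact h3 ((hall X hX).1 h2)

end Pool.Agent.Results.MP_70f607_gt.ForcedFailure
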